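import Pool.Agent.X82.FrickeE

/-!
# MP_9614a6_lc: the worst-case sparse bit-size of Fricke trace polynomials is `Θ(n^4)`

Definitions (in `Pool.Agent.X82.FrickeA`): `IsTracePoly w f` (Fricke trace polynomial), `CycLen w n`
(cyclically reduced length), `bitSize f` (total binary size of the nonzero coefficients),
`sizes n`, `S n`.
-/

open Pool.Agent.X82.Fricke

namespace Pool.Agent.Results.MP_9614a6_lc.QuarticGrowth

/-- Every `w` has exactly one trace polynomial, the maximum `S(n)` exists for every `n`, and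
`n^4 / 40^4 ≤ S(n) ≤ 384 n^4` for all `n ≥ 56`. -/
theorem result :
    (∀ w : FreeGroup (Fin 2), ∃! f : MvPolynomial (Fin 3) ℤ, IsTracePoly w f) ∧
    (∀ n : ℕ, IsGreatest (sizes n) (S n)) ∧
    (∀ n : ℕ, 56 ≤ n → (n : ℝ) ^ 4 / 40 ^ 4 ≤ (S n : ℝ) ∧ (S n : ℝ) ≤ 384 * (n : ℝ) ^ 4) :=
  ⟨existsUnique, isGreatest, bounds⟩

end Pool.Agent.Results.MP_9614a6_lc.QuarticGrowth
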